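import Pool.Agent.H59.L.S8.H447.DT.Ext

/-! DT-ADJ: adjoining a variable with algebraic residue -/

set_option autoImplicit false
set_option linter.all false

universe u

namespace Pool.Agent.H447.DT

open IsLocalRing Pool.Agent.W418.LU2 Pool.Agent.H176.DT Polynomial

theorem dim_le_of_span {B : Type u} [CommRing B] [IsRegularLocalRing B] {κ : Type} [Fintype κ]
    {w : κ → B} (hw : Ideal.span (Set.range w) = maximalIdeal B) :
    ringKrullDim B ≤ ((Fintype.card κ : ℕ) : WithBot ℕ∞) := by
  have hz : ∀ i, w i ∈ maximalIdeal B := fun i => by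
    rw [← hw]; exact Ideal.subset_span ⟨i, rfl⟩
  have h1 : Submodule.span (ResidueField B) (Set.range
      fun i => ((maximalIdeal B).toCotangent ⟨w i, hz i⟩ : CotangentSpace B)) = ⊤ := by
    have h2 : Submodule.span B (Set.range fun i => (⟨w i, hz i⟩ : maximalIdeal B)) = ⊤ := by
      apply Submodule.map_injective_of_injective (maximalIdeal B).subtype_injective
      rw [Submodule.map_span, ← Set.range_comp, Submodule.map_top, Submodule.range_subtype]
      exact hw
    have h3 := CotangentSpace.span_image_eq_top_iff.2 h2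
    rw [← Set.range_comp] at h3
    exact h3
  have h5 := finrank_range_le_card (R := ResidueField B)
    (fun i => ((maximalIdeal B).toCotangent ⟨w i, hz i⟩ : CotangentSpace B))
  rw [Set.finrank, h1, finrank_top] at h5
  rw [← Pool.Agent.H379R3.finrank_cotangent (B := B)]
  exact_mod_cast h5

theorem adj : S_adj.{u} := by
  intro F _ A S ι _ x hA hS h t ht htr g hg hgt hmin
  classical
  have ad := adj_closure hA hS ht
  have hreg := h.reg
  have hP := ad.P_prime
  have hloc := isLocalRing_lo hA ad.SA
  have hnt : Nontrivial (lo A S) := inferInstance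
  have hxm : ∀ i, (⟨x i, h.mem i⟩ : lo A S) ∈ maximalIdeal (lo A S) := fun i => by
    rw [← h.span]; exact Ideal.subset_span ⟨i, rfl⟩
  have hmemP : ∀ f : (lo A S)[X], f ∈ ad.P ↔ NU A (eval₂ (lo A S).subtype t f) := by
    intro f
    rw [← not_iff_not, ad.not_mem_P, isUnit_lo_iff ad.SA, ad.ev_coe, NU, not_not]
  have hmax : ∀ b : lo A S, b ∈ maximalIdeal (lo A S) ↔ NU A (b : F) := by
    intro b
    rw [mem_maximalIdeal, mem_nonunits_iff, isUnit_lo_iff hS, NU]
  have hgP : g ∈ ad.P := (hmemP g).2 hgt
  have hPeq : (maximalIdeal (lo A S)).map C ⊔ Ideal.span {g} = ad.P := by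
    apply le_antisymm
    · refine sup_le (map_le ad.P ad.comap_P) ?_
      rw [Ideal.span_singleton_le_iff_mem]
      exact hgP
    · intro f hf
      have h1 : f %ₘ g + g * (f /ₘ g) = f := modByMonic_add_div f g
      have h2 : f %ₘ g ∈ ad.P := by
        have h3 : f %ₘ g = f - g * (f /ₘ g) := eq_sub_of_add_eq h1
        rw [h3]
        exact ad.P.sub_mem hf (ad.P.mul_mem_right _ hgP)
      have h3 := hmin (f %ₘ g) (degree_modByMonic_lt f hg) ((hmemP _).1 h2)
      rw [← h1]
      refine Ideal.add_mem _ (Ideal.mem_sup_left ?_) (Ideal.mem_sup_right ?_)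
      · rw [Ideal.mem_map_C_iff]
        intro n
        exact (hmax _).2 (h3 n)
      · exact Ideal.mul_mem_right _ _ (Ideal.mem_span_singleton_self _)
  have hne : (maximalIdeal (lo A S)).map C ≠ ad.P := by
    intro heq
    rw [← heq, Ideal.mem_map_C_iff] at hgP
    have h1 := hgP g.natDegree
    rw [hg.coeff_natDegree] at h1
    exact (Ideal.ne_top_iff_one _).1 (maximalIdeal.isMaximal (lo A S)).ne_top h1
  have hregL : IsRegularLocalRing (Localization.AtPrime ad.P) :=
    Polynomial.isRegularLocalRing_localization_atPrime_of_comap_eq_maximalIdeal (lo A S) ad.P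
      ad.comap_P
  have hspan : Ideal.span (Set.range fun k => algebraMap (lo A S)[X] (Localization.AtPrime ad.P)
      (Sum.elim (fun i => C (⟨x i, h.mem i⟩ : lo A S)) (fun _ : Unit => g) k)) =
      maximalIdeal (Localization.AtPrime ad.P) := by
    refine span_gen ad.P ad.comap_P ?_
    rw [← hPeq, Set.Sum.elim_range, Ideal.span_union]
    congr 1
    · rw [← h.span, Ideal.map_span, ← Set.range_comp]
      rfl
    · congr 1
      ext a
      simp [eq_comm]
  have hdim : ringKrullDim (Localization.AtPrime ad.P) = (Fintype.card (ι ⊕ Unit) : ℕ) := by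
    apply le_antisymm
    · exact @dim_le_of_span (Localization.AtPrime ad.P) _ hregL _ _ _ hspan
    · refine le_trans ?_ (dim_ge' ad.P ad.comap_P hne)
      rw [h.dim, Fintype.card_sum, Fintype.card_unit]
      exact_mod_cast le_rfl
  -- the isomorphism
  have hinj : Function.Injective ad.th := by
    rw [RingHom.injective_iff_ker_eq_bot, eq_bot_iff]
    intro y hy
    rw [RingHom.mem_ker] at hy
    rw [Ideal.mem_bot]
    obtain ⟨f, s, rfl⟩ := IsLocalization.exists_mk'_eq ad.P.primeCompl y
    have h3 : ad.ev f = 0 := by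
      have h4 : ad.th (IsLocalization.mk' _ f s * algebraMap _ _ (s : (lo A S)[X])) = 0 := by
        rw [map_mul, hy, zero_mul]
      rw [IsLocalization.mk'_spec, ad.th_alg] at h4
      exact h4
    have h4 : f = 0 := htr f (by
      have := congrArg Subtype.val h3
      exact this)
    rw [h4, IsLocalization.mk'_zero]
  let e : Localization.AtPrime ad.P ≃+* lo A (Subring.closure (insert t (S : Set F))) :=
    RingEquiv.ofBijective ad.th ⟨hinj, ad.th_surj⟩
  refine @full_of_equiv F _ A _ (ι ⊕ Unit) _ (Localization.AtPrime ad.P) _ hregL e _ hspan hdim _ ?_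
    (lo_le ad.SA) (fun y hy h0 h1 => inv_mem_lo ad.SA hy h0 h1)
  rintro (k | k)
  · change x k = (ad.th (algebraMap _ _ (C (⟨x k, h.mem k⟩ : lo A S))) : F)
    rw [ad.th_alg, ad.ev_C]
  · change eval₂ (lo A S).subtype t g = (ad.th (algebraMap _ _ g) : F)
    rw [ad.th_alg, ad.ev_coe]

end Pool.Agent.H447.DT
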