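import Pool.Agent.H59.L.S8.H176.DT.Stm

/-! DT-FAC: factors and exponents of monomials in regular local rings -/

set_option autoImplicit false
set_option linter.all false

universe u

namespace Pool.Agent.H447.DT

open IsLocalRing Pool.Agent.W418.LU2 Pool.Agent.H176.DT

variable {F : Type u} [Field F] {A P : Subring F} {ι : Type} [Fintype ι] {x : ι → F}

/-- the nonunit coordinates -/
abbrev NI (h : RegP A P x) [IsLocalRing P] : Type := {i : ι // (⟨x i, h.mem i⟩ : P) ∈ maximalIdeal P}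

open Classical in
theorem split_units (h : RegP A P x) [IsLocalRing P] (δ : ι → ℤ) :
    ∃ v, v ≠ 0 ∧ v ∈ P ∧ v⁻¹ ∈ P ∧ mo x δ = v * ∏ i : NI h, x i ^ δ i := by
  refine ⟨∏ i : {i : ι // ¬ (⟨x i, h.mem i⟩ : P) ∈ maximalIdeal P}, x i ^ δ i, ?_, ?_, ?_, ?_⟩
  · exact Finset.prod_ne_zero_iff.2 fun i _ => zpow_ne_zero _ (h.ne _)
  · refine P.prod_mem fun i _ => ?_
    have h1 := i.2
    rw [mem_maximalIdeal, mem_nonunits_iff, not_not, h.isUnit] at h1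
    have h2 := h.inv _ (h.mem i) h1.1 h1.2
    rcases Int.eq_nat_or_neg (δ i) with ⟨n, h3 | h3⟩
    · rw [h3, zpow_natCast]; exact P.pow_mem (h.mem i) n
    · rw [h3, zpow_neg, zpow_natCast, ← inv_pow]; exact P.pow_mem h2 n
  · rw [← Finset.prod_inv_distrib]
    refine P.prod_mem fun i _ => ?_
    have h1 := i.2
    rw [mem_maximalIdeal, mem_nonunits_iff, not_not, h.isUnit] at h1
    have h2 := h.inv _ (h.mem i) h1.1 h1.2
    rcases Int.eq_nat_or_neg (δ i) with ⟨n, h3 | h3⟩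
    · rw [h3, zpow_natCast, ← inv_pow]; exact P.pow_mem h2 n
    · rw [h3, zpow_neg, zpow_natCast, inv_inv]; exact P.pow_mem (h.mem i) n
  · unfold mo
    rw [mul_comm]
    exact (Fintype.prod_subtype_mul_prod_subtype
      (fun i => (⟨x i, h.mem i⟩ : P) ∈ maximalIdeal P) fun i => x i ^ δ i).symm

open Classical in
theorem coe_prod (h : RegP A P x) [IsLocalRing P] (n : NI h → ℕ) :
    ((∏ i : NI h, (⟨x i, h.mem i⟩ : P) ^ n i : P) : F) = ∏ i : NI h, x i ^ n i :=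
  map_prod P.subtype (fun i : NI h => (⟨x i, h.mem i⟩ : P) ^ n i) Finset.univ

open Classical in
theorem signs (h : RegP A P x) [hreg : IsRegularLocalRing P] {u : F} (u0 : u ≠ 0) (u1 : u ∈ P)
    (u2 : u⁻¹ ∈ P) (δ : ι → ℤ) (w : P) (hw : (w : F) = u * ∏ i : NI h, x i ^ δ i) :
    (∀ i : NI h, 0 ≤ δ i) ∧ ∃ uu : P, IsUnit uu ∧
      w = uu * ∏ i : NI h, (⟨x i, h.mem i⟩ : P) ^ (δ i).toNat := by
  have hInd : Ind (fun i : NI h => (⟨x i, h.mem i⟩ : P)) :=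
    h.ind.ind (Subtype.val : NI h → ι) Subtype.val_injective fun i => i.2
  have huv : IsUnit (⟨u, u1⟩ : P) :=
    isUnit_iff_exists_inv.2 ⟨⟨u⁻¹, u2⟩, Subtype.ext (mul_inv_cancel₀ u0)⟩
  have heq : w * ∏ i : NI h, (⟨x i, h.mem i⟩ : P) ^ (-δ i).toNat =
      ⟨u, u1⟩ * ∏ i : NI h, (⟨x i, h.mem i⟩ : P) ^ (δ i).toNat := by
    apply Subtype.ext
    change (w : F) * ((∏ i : NI h, (⟨x i, h.mem i⟩ : P) ^ (-δ i).toNat : P) : F) =
      u * ((∏ i : NI h, (⟨x i, h.mem i⟩ : P) ^ (δ i).toNat : P) : F)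
    rw [coe_prod, coe_prod, hw, mul_assoc, ← Finset.prod_mul_distrib]
    congr 1
    refine Finset.prod_congr rfl fun i _ => ?_
    rw [← zpow_natCast, ← zpow_natCast, ← zpow_add₀ (h.ne _)]
    congr 1
    omega
  have hδ : ∀ i : NI h, 0 ≤ δ i := by
    intro i
    by_contra hneg
    have h2 : (⟨x i, h.mem i⟩ : P) ∣ ⟨u, u1⟩ *
        ∏ i : NI h, (⟨x i, h.mem i⟩ : P) ^ (δ i).toNat := by
      rw [← heq]
      refine dvd_trans ?_ (dvd_mul_left _ _)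
      refine dvd_trans ?_ (Finset.dvd_prod_of_mem _ (Finset.mem_univ i))
      exact dvd_pow_self _ (by omega)
    have hpr : Prime (⟨x i, h.mem i⟩ : P) := hInd.prime i
    rcases hpr.dvd_or_dvd h2 with h3 | h3
    · exact hpr.not_isUnit (isUnit_of_dvd_unit h3 huv)
    · obtain ⟨j, -, h4⟩ := hpr.exists_mem_finset_dvd h3
      have h5 := hpr.dvd_of_dvd_pow h4
      by_cases hij : i = j
      · subst hij
        have h6 : (δ i).toNat = 0 := by omega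
        rw [h6, pow_zero] at h4
        exact hpr.not_isUnit (isUnit_of_dvd_one h4)
      · exact hInd.not_dvd hij h5
  refine ⟨hδ, ⟨u, u1⟩, huv, ?_⟩
  rw [← heq]
  have h1 : ∏ i : NI h, (⟨x i, h.mem i⟩ : P) ^ (-δ i).toNat = 1 :=
    Finset.prod_eq_one fun i _ => by
      have h2 : (-δ i).toNat = 0 := by have := hδ i; omega
      rw [h2, pow_zero]
  rw [h1, mul_one]

theorem expo : S_expo.{u} := by
  intro F _ A P ι _ x h δ hmo i hi
  classical
  have hreg := h.reg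
  obtain ⟨v, v0, v1, v2, hv⟩ := split_units h δ
  have h1 := (signs h v0 v1 v2 δ ⟨mo x δ, hmo⟩ hv).1
  have h2 : (⟨x i, h.mem i⟩ : P) ∈ maximalIdeal P := by
    rw [h.mem_max]
    exact fun h3 => hi h3.2
  exact h1 ⟨i, h2⟩

theorem fac : S_fac.{u} := by
  intro F _ A P ι _ x h a b ha hb hab
  classical
  have hreg := h.reg
  obtain ⟨u, u0, u1, u2, δ, hδ⟩ := hab
  obtain ⟨v, v0, v1, v2, hv⟩ := split_units h δ
  have hInd : Ind (fun i : NI h => (⟨x i, h.mem i⟩ : P)) :=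
    h.ind.ind (Subtype.val : NI h → ι) Subtype.val_injective fun i => i.2
  obtain ⟨-, uu, huu, hw⟩ := signs h (u := u * v) (mul_ne_zero u0 v0) (P.mul_mem u1 v1)
    (by rw [mul_inv]; exact P.mul_mem u2 v2) δ (⟨a, ha⟩ * ⟨b, hb⟩) (by
      change a * b = _
      rw [hδ, hv, mul_assoc])
  obtain ⟨w, m, hwu, hm⟩ := dvd_monomial (fun i => hInd.prime i) _ _ _ _ _ huu le_rfl hw
  have hwu' := (h.isUnit w).1 hwu
  refine ⟨w, hwu'.1, w.2, h.inv _ w.2 hwu'.1 hwu'.2,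
    fun i => if hi : (⟨x i, h.mem i⟩ : P) ∈ maximalIdeal P then (m ⟨i, hi⟩ : ℤ) else 0, ?_⟩
  have h1 : a = (w : F) * ((∏ i : NI h, (⟨x i, h.mem i⟩ : P) ^ m i : P) : F) :=
    congrArg Subtype.val hm
  rw [h1, coe_prod]
  congr 1
  unfold mo
  rw [← Fintype.prod_subtype_mul_prod_subtype
    (fun i => (⟨x i, h.mem i⟩ : P) ∈ maximalIdeal P)]
  have h2 : ∏ i : {i : ι // ¬ (⟨x i, h.mem i⟩ : P) ∈ maximalIdeal P}, x i ^ (if hi :
      (⟨x i, h.mem i⟩ : P) ∈ maximalIdeal P then (m ⟨i, hi⟩ : ℤ) else 0) = 1 := by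
    refine Finset.prod_eq_one fun i _ => ?_
    rw [dif_neg i.2, zpow_zero]
  rw [h2, mul_one]
  refine Finset.prod_congr rfl fun i _ => ?_
  have e1 : (if hi : (⟨x i.1, h.mem i.1⟩ : P) ∈ maximalIdeal P then (m ⟨i.1, hi⟩ : ℤ) else 0) =
      (m i : ℤ) := dif_pos i.2
  change x i.1 ^ m i = x i.1 ^ (if hi : (⟨x i.1, h.mem i.1⟩ : P) ∈ maximalIdeal P then
    (m ⟨i.1, hi⟩ : ℤ) else 0)
  rw [e1, zpow_natCast]

end Pool.Agent.H447.DT
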